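import Mathlib

set_option autoImplicit false

namespace Pool.Agent.H.MP_f67ce1_al

open MulOpposite

lemma proj_of_dual {R M : Type} [Ring R] [AddCommGroup M] [Module R M] {ι : Type}
    (y : ι → M) (φ : ι → M →ₗ[R] R)
    (h : ∀ x, ∃ t : Finset ι, (∀ i, i ∉ t → φ i x = 0) ∧ ∑ i ∈ t, φ i x • y i = x) :
    Module.Projective R M := by
  classical
  choose t ht1 ht2 using h
  let i0 : M → ι →₀ R := fun x => Finsupp.onFinset (t x) (fun i => φ i x)
    (fun i hi => by by_contra hc; exact hi (ht1 x i hc))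
  let i1 : M →ₗ[R] ι →₀ R :=
    { toFun := i0
      map_add' := fun a b => by ext i; simp [i0]
      map_smul' := fun r a => by ext i; simp [i0] }
  refine Module.Projective.of_split i1 (Finsupp.linearCombination R y) ?_
  apply LinearMap.ext; intro x
  change Finsupp.linearCombination R y (i0 x) = x
  rw [Finsupp.linearCombination_apply, Finsupp.sum_of_support_subset _ Finsupp.support_onFinset_subset
    _ (fun i _ => by simp)]
  exact ht2 x

abbrev V := ℕ →₀ ℚ
abbrev E := Module.End ℚ V

noncomputable def e (k : ℕ) : V := Finsupp.single k 1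

def Tri (x : E) : Prop := ∀ k m, k < m → x (e k) m = 0

lemma tri_apply {x : E} (hx : Tri x) {v : V} {k : ℕ} (hv : ∀ m, k < m → v m = 0) :
    ∀ m, k < m → x v m = 0 := by
  intro m hm
  have : v = ∑ j ∈ v.support, v j • e j := by
    conv_lhs => rw [← Finsupp.sum_single v]
    unfold Finsupp.sum e
    simp
  rw [this, map_sum, Finsupp.finsetSum_apply]
  refine Finset.sum_eq_zero fun j hj => ?_
  have hj' : j ≤ k := by
    by_contra hc
    exact Finsupp.mem_support_iff.1 hj (hv j (not_le.1 hc))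
  rw [map_smul, Finsupp.smul_apply, hx j m (by omega), smul_zero]

noncomputable def S : Subring E where
  carrier := {x | Tri x ∧ ∃ (c : ℚ) (N : ℕ), ∀ k, N < k → x (e k) = c • e k}
  mul_mem' := by
    rintro a b ⟨ha, c, N, hc⟩ ⟨hb, d, M, hd⟩
    refine ⟨fun k m hm => tri_apply ha (hb k) m hm, d * c, max N M, fun k hk => ?_⟩
    rw [Module.End.mul_apply, hd k (by omega), map_smul, hc k (by omega), smul_smul]
  one_mem' := ⟨fun k m hm => by simp [e, hm.ne], 1, 0, by simp⟩
  add_mem' := by
    rintro a b ⟨ha, c, N, hc⟩ ⟨hb, d, M, hd⟩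
    refine ⟨fun k m hm => by simp [ha k m hm, hb k m hm], c + d, max N M, fun k hk => ?_⟩
    rw [LinearMap.add_apply, hd k (by omega), hc k (by omega), add_smul]
  zero_mem' := ⟨fun k m hm => by simp, 0, 0, by simp⟩
  neg_mem' := by
    rintro a ⟨ha, c, N, hc⟩
    exact ⟨fun k m hm => by simp [ha k m hm], -c, N, fun k hk => by simp [hc k hk]⟩

/-- the rank one map v ↦ v m • w -/
noncomputable def rk (w : V) (m : ℕ) : E := (Finsupp.lapply m : V →ₗ[ℚ] ℚ).smulRight w

lemma rk_apply (w v : V) (m : ℕ) : rk w m v = v m • w := rfl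

lemma e_apply (k m : ℕ) : e k m = if k = m then 1 else 0 := by simp [e, Finsupp.single_apply]

lemma rk_mem (j m : ℕ) (h : j ≤ m) : rk (e j) m ∈ S := by
  refine ⟨fun k l hl => ?_, 0, m, fun k hk => ?_⟩
  · rw [rk_apply, Finsupp.smul_apply, e_apply, e_apply]
    split_ifs <;> first | omega | simp
  · rw [rk_apply, e_apply, if_neg (by omega), zero_smul, zero_smul]

lemma ext_e {a b : E} (h : ∀ k, a (e k) = b (e k)) : a = b := by
  apply Finsupp.lhom_ext'
  intro k
  apply LinearMap.ext_ring
  exact h k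

abbrev R := (↥S)ᵐᵒᵖ

def ev (x : R) : E := ((unop x : S) : E)

lemma ev_mul (x y : R) : ev (x * y) = ev y * ev x := rfl
lemma ev_add (x y : R) : ev (x + y) = ev x + ev y := rfl
lemma ev_sub (x y : R) : ev (x - y) = ev x - ev y := rfl
lemma ev_inj {x y : R} (h : ev x = ev y) : x = y := unop_injective (Subtype.ext h)
lemma ev_mem (x : R) : ev x ∈ S := (unop x).2
def mk (x : E) (h : x ∈ S) : R := op ⟨x, h⟩
lemma ev_mk (x : E) (h : x ∈ S) : ev (mk x h) = x := rfl
lemma ev_sum {ι : Type} (t : Finset ι) (f : ι → R) : ev (∑ i ∈ t, f i) = ∑ i ∈ t, ev (f i) := by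
  classical
  induction t using Finset.induction_on with
  | empty => rfl
  | insert a t ha ih => rw [Finset.sum_insert ha, Finset.sum_insert ha, ev_add, ih]

lemma smul_one_mem (c : ℚ) : (c • (1 : E)) ∈ S :=
  ⟨fun k m hm => by simp [e, hm.ne], c, 0, by simp⟩

noncomputable def W (I : Submodule R R) (j : ℕ) : Submodule ℚ V where
  carrier := {v | ∃ x ∈ I, ev x (e j) = v}
  add_mem' := by
    rintro _ _ ⟨x, hx, rfl⟩ ⟨y, hy, rfl⟩
    exact ⟨x + y, I.add_mem hx hy, rfl⟩
  zero_mem' := ⟨0, I.zero_mem, rfl⟩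
  smul_mem' := by
    rintro c _ ⟨x, hx, rfl⟩
    refine ⟨mk _ (smul_one_mem c) * x, I.smul_mem _ hx, ?_⟩
    rw [ev_mul, ev_mk]; simp

lemma W_mono (I : Submodule R R) {j k : ℕ} (h : j ≤ k) : W I j ≤ W I k := by
  rintro _ ⟨x, hx, rfl⟩
  refine ⟨mk _ (rk_mem j k h) * x, I.smul_mem _ hx, ?_⟩
  rw [ev_mul, ev_mk, Module.End.mul_apply, rk_apply, e_apply, if_pos rfl, one_smul]

lemma W_tri (I : Submodule R R) {j : ℕ} {v : V} (hv : v ∈ W I j) : ∀ m, j < m → v m = 0 := by
  obtain ⟨x, -, rfl⟩ := hv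
  exact (ev_mem x).1 j

lemma exists_f (I : Submodule R R) : ∃ f ∈ I, ∀ x ∈ I, ∃ N, ∀ k, N < k →
    ev (x - x * f) (e k) = 0 := by
  by_cases h : ∀ x ∈ I, ∃ N, ∀ k, N < k → ev x (e k) = 0
  · exact ⟨0, I.zero_mem, by simpa using h⟩
  · push Not at h
    obtain ⟨x, hx, h⟩ := h
    obtain ⟨-, c, N, hc⟩ := ev_mem x
    have hc0 : c ≠ 0 := by
      rintro rfl
      obtain ⟨k, hk, h2⟩ := h N
      exact h2 (by rw [hc k hk, zero_smul])
    refine ⟨mk _ (smul_one_mem c⁻¹) * x, I.smul_mem _ hx, fun y _ => ?_⟩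
    obtain ⟨-, d, M, hd⟩ := ev_mem y
    refine ⟨max N M, fun k hk => ?_⟩
    rw [ev_sub, ev_mul, ev_mul, ev_mk, LinearMap.sub_apply, Module.End.mul_apply,
      Module.End.mul_apply, hd k (by omega)]
    simp only [LinearMap.smul_apply, Module.End.one_apply, map_smul]
    rw [hc k (by omega), smul_smul, smul_smul, mul_assoc, inv_mul_cancel₀ hc0, mul_one, sub_self]

lemma exists_q (U : Submodule ℚ V) : ∃ q : E, (∀ v, q v ∈ U) ∧ ∀ v ∈ U, q v = v := by
  obtain ⟨C, hC⟩ := U.exists_isCompl
  refine ⟨U.subtype ∘ₗ U.projectionOnto C hC, fun v => (U.projectionOnto C hC v).2, fun v hv => ?_⟩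
  have := Submodule.projectionOnto_apply_left hC ⟨v, hv⟩
  simp only [LinearMap.comp_apply]
  rw [this]; rfl

theorem hered (I : Submodule R R) : Module.Projective R I := by
  classical
  obtain ⟨f, hf, hfin⟩ := exists_f I
  choose q hq1 hq2 using fun j => exists_q (W I j)
  let Q : ℕ → E := fun j => Nat.casesOn j 0 q
  let p : ℕ → E := fun j => Q (j + 1) - Q j
  have hp1 : ∀ j v, p j v ∈ W I j := by
    intro j v
    refine (W I j).sub_mem (hq1 j v) ?_
    cases j with
    | zero => exact (W I 0).zero_mem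
    | succ j => exact W_mono I (Nat.le_succ j) (hq1 j v)
  have hp2 : ∀ j k v, k < j → v ∈ W I k → p j v = 0 := by
    intro j k v hjk hv
    cases j with
    | zero => omega
    | succ j =>
      change q (j + 1) v - q j v = 0
      rw [hq2 _ v (W_mono I (by omega) hv), hq2 _ v (W_mono I (by omega) hv), sub_self]
  have hp3 : ∀ N v, v ∈ W I N → ∑ j ∈ Finset.range (N + 1), p j v = v := by
    intro N v hv
    have := Finset.sum_range_sub (fun j => Q j v) (N + 1)
    refine Eq.trans this ?_
    change q N v - 0 = v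
    rw [sub_zero, hq2 N v hv]
  have hy : ∀ j m : ℕ, ∃ y ∈ I, ev y = rk (q j (e m)) j := by
    intro j m
    obtain ⟨x, hx, h⟩ := hq1 j (e m)
    refine ⟨mk _ (rk_mem j j le_rfl) * x, I.smul_mem _ hx, ?_⟩
    rw [ev_mul, ev_mk]
    apply LinearMap.ext; intro v
    rw [Module.End.mul_apply, rk_apply, rk_apply, map_smul, h]
  choose y hyI hy using hy
  have hg : ∀ x : I, (x : R) - x * f ∈ I := fun x => I.sub_mem x.2 (I.smul_mem _ hf)
  have hW : ∀ (x : I) k, ev ((x : R) - x * f) (e k) ∈ W I k := fun x k => ⟨_, hg x, rfl⟩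
  have hmem : ∀ (j m : ℕ) (x : I), rk (e j) m * p j * ev ((x : R) - x * f) ∈ S := by
    intro j m x
    obtain ⟨N, hN⟩ := hfin x x.2
    refine ⟨fun k l hl => ?_, 0, N, fun k hk => ?_⟩
    · rw [Module.End.mul_apply, Module.End.mul_apply, rk_apply, Finsupp.smul_apply]
      by_cases hjk : k < j
      · rw [hp2 j k _ hjk (hW x k)]; simp
      · rw [e_apply, if_neg (by omega), smul_zero]
    · rw [Module.End.mul_apply, hN k hk, map_zero, zero_smul]
  let φ : ℕ × ℕ → I →ₗ[R] R := fun jm =>
    { toFun := fun x => mk _ (hmem jm.1 jm.2 x)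
      map_add' := fun a b => ev_inj (by
        rw [ev_add, ev_mk, ev_mk, ev_mk, ← mul_add, ← ev_add]
        congr 2
        rw [Submodule.coe_add, add_mul]; abel)
      map_smul' := fun r a => ev_inj (by
        rw [RingHom.id_apply, smul_eq_mul, ev_mul, ev_mk, ev_mk, mul_assoc _ _ (ev r), ← ev_mul,
          Submodule.coe_smul, smul_eq_mul, mul_sub r, mul_assoc r]) }
  have hφ : ∀ j m x, ev (φ (j, m) x) = rk (e j) m * p j * ev ((x : R) - x * f) := fun _ _ _ => rfl
  refine proj_of_dual (ι := Option (ℕ × ℕ))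
    (fun o => Option.casesOn o ⟨f, hf⟩ fun jm => ⟨y jm.1 jm.2, hyI _ _⟩)
    (fun o => Option.casesOn o I.subtype φ) fun x => ?_
  obtain ⟨N, hN⟩ := hfin x x.2
  have hWN : ∀ k, ev ((x : R) - x * f) (e k) ∈ W I N := by
    intro k
    by_cases hk : N < k
    · rw [hN k hk]; exact (W I N).zero_mem
    · exact W_mono I (not_lt.1 hk) (hW x k)
  refine ⟨Finset.insertNone (Finset.range (N + 1) ×ˢ Finset.range (N + 1)), ?_, ?_⟩
  · rintro (_ | ⟨j, m⟩) hi
    · simp at hi
    · change φ (j, m) x = 0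
      apply ev_inj
      rw [hφ]
      apply ext_e; intro k
      rw [Module.End.mul_apply, Module.End.mul_apply, rk_apply]
      change _ = (0 : V)
      by_cases hj : N < j
      · rw [hp2 j N _ hj (hWN k)]; simp
      · have hm : N < m := by
          simp only [Finset.some_mem_insertNone, Finset.mem_product, Finset.mem_range] at hi
          omega
        rw [W_tri I (hp1 j _) m (by omega), zero_smul]
  · rw [Finset.sum_insertNone]
    apply Subtype.ext
    rw [Submodule.coe_add, Submodule.coe_sum]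
    have : ∑ i ∈ Finset.range (N + 1) ×ˢ Finset.range (N + 1), φ i x * y i.1 i.2
        = (x : R) - x * f := by
      apply ev_inj
      rw [ev_sum]
      apply ext_e; intro k
      rw [LinearMap.sum_apply, Finset.sum_product, ← hp3 N _ (hWN k)]
      refine Finset.sum_congr rfl fun j hj => ?_
      set w := p j (ev ((x : R) - x * f) (e k)) with hw
      have hwW : w ∈ W I j := hp1 j _
      have h1 : ∀ m, ev (φ (j, m) x * y j m) (e k) = q j (w m • e m) := by
        intro m
        rw [ev_mul, hφ, hy, Module.End.mul_apply, Module.End.mul_apply, Module.End.mul_apply,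
          rk_apply, rk_apply, ← hw, Finsupp.smul_apply, e_apply, if_pos rfl, map_smul]
        simp
      simp only [h1]
      rw [← map_sum]
      have h2 : ∑ m ∈ Finset.range (N + 1), w m • e m = w := by
        ext l
        rw [Finsupp.finsetSum_apply]
        simp only [Finsupp.smul_apply, e_apply, smul_eq_mul, mul_ite, mul_one, mul_zero,
          Finset.sum_ite_eq', Finset.mem_range]
        split_ifs with h
        · rfl
        · rw [W_tri I hwW l (by rw [Finset.mem_range] at hj; omega)]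
      rw [h2, hq2 j w hwW]
    change (x : R) * f + ∑ i ∈ _, φ i x * y i.1 i.2 = x
    rw [this]; abel

noncomputable def u (i : ℕ) : R := mk _ (rk_mem i (i + 1) (Nat.le_succ i))

lemma u_sq (i : ℕ) (r : R) : u i * r * u i = 0 := by
  apply ev_inj
  rw [ev_mul, ev_mul, u, ev_mk]
  apply LinearMap.ext; intro v
  rw [Module.End.mul_apply, Module.End.mul_apply, rk_apply, rk_apply, map_smul, Finsupp.smul_apply,
    (ev_mem r).1 i (i + 1) (Nat.lt_succ_self i)]
  change _ = (0 : V)
  simp

noncomputable def L : ℕ → List R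
  | 0 => []
  | n + 1 => u n :: L n

lemma L_len (n : ℕ) : (L n).length = n := by
  induction n with
  | zero => rfl
  | succ n ih => simp [L, ih]

lemma L_mem (n : ℕ) : ∀ x ∈ L n, ∃ i, x = u i := by
  induction n with
  | zero => simp [L]
  | succ n ih =>
    intro x hx
    rcases List.mem_cons.1 hx with h | h
    · exact ⟨n, h⟩
    · exact ih x h

lemma L_prod (n : ℕ) : ev (L n).prod (e n) = e 0 := by
  induction n with
  | zero => rfl
  | succ n ih =>
    rw [L, List.prod_cons, ev_mul, u, ev_mk, Module.End.mul_apply, rk_apply, e_apply, if_pos rfl,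
      one_smul, ih]

lemma L_ne (n : ℕ) : (L n).prod ≠ 0 := by
  intro h
  have := L_prod n
  rw [h] at this
  have h2 : (0 : V) 0 = e 0 0 := congrArg (fun v : V => v 0) this
  simp [e_apply] at h2

end Pool.Agent.H.MP_f67ce1_al
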